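import Mathlib

/-!
Splittability of the class `𝒢(T, K_k)`.
-/

namespace Pool.Agent.H17.Split

/-- The class `𝒢(T, K_k)` of finite graphs without induced `T` or `K_k` is splittable: for some
`c` and some `β` in the class, every `γ` in the class has a vertex colouring with `c` colours
such that no induced copy of `β` in `γ` is monochromatic. -/
def Splittable {m : ℕ} (T : SimpleGraph (Fin m)) (k : ℕ) : Prop :=
  ∃ c : ℕ, ∃ (n : ℕ) (β : SimpleGraph (Fin n)),
    IsEmpty (T ↪g β) ∧ IsEmpty ((⊤ : SimpleGraph (Fin k)) ↪g β) ∧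
    ∀ (p : ℕ) (γ : SimpleGraph (Fin p)),
      IsEmpty (T ↪g γ) → IsEmpty ((⊤ : SimpleGraph (Fin k)) ↪g γ) →
      ∃ f : Fin p → Fin c, ∀ e : β ↪g γ, ∃ x y : Fin n, f (e x) ≠ f (e y)

/-- The set of non-leaf vertices: those with at least two neighbours. -/
def nonLeaf {n : ℕ} (T : SimpleGraph (Fin n)) : Set (Fin n) :=
  {v | ∃ x y, x ≠ y ∧ T.Adj v x ∧ T.Adj v y}

end Pool.Agent.H17.Split
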