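import Mathlib

/-!
Ramsey theorem for pairs, and the no-clique predicate.
-/

namespace Pool.Agent.H17.Split

open Finset

/-- no `k` pairwise adjacent vertices -/
def NoClique {V : Type} (k : ℕ) (G : SimpleGraph V) : Prop :=
  ∀ q : Fin k → V, ¬ ∀ i j, i ≠ j → G.Adj (q i) (q j)

theorem ramsey_aux (C : Type) [Finite C] [Nonempty C] (N : ℕ) :
    ∃ r : ℕ, ∀ (α : Type) [LinearOrder α] (S : Finset α), r ≤ S.card → ∀ χ : α → α → C,
      ∃ (a : Fin N → α) (g : Fin N → C), StrictMono a ∧ (∀ i, a i ∈ S) ∧
        ∀ i j, i < j → χ (a i) (a j) = g i := by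
  classical
  have := Fintype.ofFinite C
  induction N with
  | zero =>
    refine ⟨0, fun α _ S _ χ => ⟨fun i => i.elim0, fun i => i.elim0, fun i => i.elim0,
      fun i => i.elim0, fun i => i.elim0⟩⟩
  | succ N ih =>
    obtain ⟨r, hr⟩ := ih
    refine ⟨Fintype.card C * r + 1, fun α _ S hS χ => ?_⟩
    have hne : S.Nonempty := by
      rw [← card_pos]
      omega
    set s₀ := S.min' hne with hs₀
    have hs₀S : s₀ ∈ S := S.min'_mem hne
    have hcard : (univ : Finset C).card * r ≤ (S.erase s₀).card := by
      rw [card_erase_of_mem hs₀S, card_univ]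
      omega
    obtain ⟨c₀, _, hc₀⟩ := exists_le_card_fiber_of_mul_le_card_of_maps_to
      (s := S.erase s₀) (t := (univ : Finset C)) (f := fun x => χ s₀ x)
      (fun a _ => mem_univ _) univ_nonempty hcard
    obtain ⟨a, g, ha, haS, hg⟩ := hr α _ hc₀ χ
    have hgt : ∀ i, s₀ < a i := by
      intro i
      have h1 := haS i
      rw [mem_filter, mem_erase] at h1
      exact lt_of_le_of_ne (S.min'_le _ h1.1.2) (Ne.symm h1.1.1)
    refine ⟨Fin.cons s₀ a, Fin.cons c₀ g, ?_, ?_, ?_⟩
    · intro i j hij
      induction i using Fin.cases with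
      | zero =>
        induction j using Fin.cases with
        | zero => exact absurd hij (lt_irrefl _)
        | succ j => simpa using hgt j
      | succ i =>
        induction j using Fin.cases with
        | zero => exact absurd hij (by simp)
        | succ j => simpa using ha (Fin.succ_lt_succ_iff.mp hij)
    · intro i
      refine Fin.cases ?_ (fun i => ?_) i
      · simpa using hs₀S
      · have h1 := haS i
        rw [mem_filter, mem_erase] at h1
        simpa using h1.1.2
    · intro i j hij
      induction i using Fin.cases with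
      | zero =>
        induction j using Fin.cases with
        | zero => exact absurd hij (lt_irrefl _)
        | succ j =>
          have h1 := haS j
          rw [mem_filter] at h1
          simpa using h1.2
      | succ i =>
        induction j using Fin.cases with
        | zero => exact absurd hij (by simp)
        | succ j => simpa using hg i j (Fin.succ_lt_succ_iff.mp hij)

/-- Ramsey's theorem for pairs -/
theorem ramsey (C : Type) [Finite C] [Nonempty C] (m : ℕ) :
    ∃ r : ℕ, ∀ χ : Fin r → Fin r → C,
      ∃ e : Fin m → Fin r, StrictMono e ∧ ∃ c, ∀ i j, i < j → χ (e i) (e j) = c := by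
  classical
  have := Fintype.ofFinite C
  obtain ⟨r, hr⟩ := ramsey_aux C (Fintype.card C * m)
  refine ⟨r, fun χ => ?_⟩
  obtain ⟨a, g, ha, _, hg⟩ := hr (Fin r) univ (by simp) χ
  obtain ⟨c, _, hc⟩ := exists_le_card_fiber_of_mul_le_card_of_maps_to
    (s := (univ : Finset (Fin (Fintype.card C * m)))) (t := (univ : Finset C)) (f := g) (n := m)
    (fun a _ => mem_univ _) univ_nonempty (by simp)
  set e := (univ.filter fun x => g x = c).orderEmbOfCardLe hc with he
  refine ⟨fun i => a (e i), fun i j hij => ha (e.strictMono hij), c, fun i j hij => ?_⟩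
  rw [hg _ _ (e.strictMono hij)]
  have := orderEmbOfCardLe_mem _ hc i
  rw [mem_filter] at this
  exact this.2

end Pool.Agent.H17.Split
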