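import Mathlib
import Pool.Agent.H17.Split.Ramsey

/-!
One step of the partite construction.
-/

namespace Pool.Agent.H17.Split

open Combinatorics

section Step

variable {V : Type} (G : SimpleGraph V) (π : V → ℕ) (i j : ℕ) (s : Prop)

/-- the alphabet -/
def Alph : Type := {p : V × V // π p.1 = i ∧ π p.2 = j ∧ (G.Adj p.1 p.2 ↔ s)}

variable (ι : Type)

/-- vertices of the new system -/
abbrev NewV : Type := (ι → V) ⊕ ((ι → V) ⊕ (V × Line (Alph G π i j s) ι))

variable {G π i j s ι}

/-- first coordinate function of a line at `x` -/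
def lineFst (l : Line (Alph G π i j s) ι) (x : V) : ι → V := fun a =>
  match l.idxFun a with
  | none => x
  | some p => p.1.1

/-- second coordinate function of a line at `y` -/
def lineSnd (l : Line (Alph G π i j s) ι) (y : V) : ι → V := fun a =>
  match l.idxFun a with
  | none => y
  | some p => p.1.2

open Classical in
/-- the copy of the old system given by a line -/
noncomputable def ψ (l : Line (Alph G π i j s) ι) (x : V) : NewV G π i j s ι :=
  if π x = i then Sum.inl (lineFst l x)
  else if π x = j then Sum.inr (Sum.inl (lineSnd l x))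
  else Sum.inr (Sum.inr (x, l))

/-- adjacency between the parts `i` and `j` -/
def rel (G : SimpleGraph V) (s : Prop) (f g : ι → V) : Prop :=
  (s ∧ ∀ a, G.Adj (f a) (g a)) ∨ (¬ s ∧ ∃ a, G.Adj (f a) (g a))

/-- base adjacency -/
def base : NewV G π i j s ι → NewV G π i j s ι → Prop
  | Sum.inl f, Sum.inr (Sum.inl g) => rel G s f g
  | _, _ => False

/-- new part function -/
def newPart : NewV G π i j s ι → ℕ
  | Sum.inl _ => i
  | Sum.inr (Sum.inl _) => j
  | Sum.inr (Sum.inr (x, _)) => π x

theorem newPart_ψ (l : Line (Alph G π i j s) ι) (x : V) : newPart (ψ l x) = π x := by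
  unfold ψ
  split_ifs with h1 h2
  · simp [newPart, h1]
  · simp [newPart, h2]
  · simp [newPart]

theorem ψ_i (l : Line (Alph G π i j s) ι) {x : V} (h : π x = i) :
    ψ l x = Sum.inl (lineFst l x) := by
  simp [ψ, h]

theorem ψ_j (hij : i ≠ j) (l : Line (Alph G π i j s) ι) {x : V} (h : π x = j) :
    ψ l x = Sum.inr (Sum.inl (lineSnd l x)) := by
  simp [ψ, h, Ne.symm hij]

theorem ψ_other (l : Line (Alph G π i j s) ι) {x : V} (h : π x ≠ i) (h' : π x ≠ j) :
    ψ l x = Sum.inr (Sum.inr (x, l)) := by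
  simp [ψ, h, h']

theorem lineFst_inj (l : Line (Alph G π i j s) ι) : Function.Injective (lineFst l) := by
  intro x y h
  obtain ⟨a, ha⟩ := l.proper
  have := congrFun h a
  simpa [lineFst, ha] using this

theorem lineSnd_inj (l : Line (Alph G π i j s) ι) : Function.Injective (lineSnd l) := by
  intro x y h
  obtain ⟨a, ha⟩ := l.proper
  have := congrFun h a
  simpa [lineSnd, ha] using this

theorem ψ_inj (hij : i ≠ j) (l : Line (Alph G π i j s) ι) : Function.Injective (ψ l) := by
  intro x y h
  have hp : π x = π y := by rw [← newPart_ψ l x, ← newPart_ψ l y, h]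
  by_cases h1 : π x = i
  · rw [ψ_i l h1, ψ_i l (hp ▸ h1)] at h
    exact lineFst_inj l (Sum.inl_injective h)
  · by_cases h2 : π x = j
    · rw [ψ_j hij l h2, ψ_j hij l (hp ▸ h2)] at h
      exact lineSnd_inj l (Sum.inl_injective (Sum.inr_injective h))
    · rw [ψ_other l h1 h2, ψ_other l (hp ▸ h1) (hp ▸ h2)] at h
      exact (Prod.mk.inj (Sum.inr_injective (Sum.inr_injective h))).1

theorem rel_line (l : Line (Alph G π i j s) ι) (x y : V) :
    rel G s (lineFst l x) (lineSnd l y) ↔ G.Adj x y := by
  constructor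
  · rintro (⟨_, h⟩ | ⟨hs, a, h⟩)
    · obtain ⟨a, ha⟩ := l.proper
      have := h a
      simpa [lineFst, lineSnd, ha] using this
    · unfold lineFst lineSnd at h
      cases ha : l.idxFun a with
      | none => simpa [ha] using h
      | some p =>
        simp only [ha] at h
        exact absurd (p.2.2.2.mp h) hs
  · intro h
    by_cases hs : s
    · refine Or.inl ⟨hs, fun a => ?_⟩
      unfold lineFst lineSnd
      cases ha : l.idxFun a with
      | none => simpa using h
      | some p => simpa using p.2.2.2.mpr hs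
    · refine Or.inr ⟨hs, ?_⟩
      obtain ⟨a, ha⟩ := l.proper
      exact ⟨a, by simpa [lineFst, lineSnd, ha] using h⟩

theorem base_ψ (hij : i ≠ j) (l : Line (Alph G π i j s) ι) {x y : V}
    (h : base (ψ l x) (ψ l y)) : π x = i ∧ π y = j ∧ G.Adj x y := by
  by_cases h1 : π x = i
  · by_cases h2 : π y = j
    · rw [ψ_i l h1, ψ_j hij l h2] at h
      exact ⟨h1, h2, (rel_line l x y).mp h⟩
    · exfalso
      rw [ψ_i l h1] at h
      by_cases h3 : π y = i
      · rw [ψ_i l h3] at h
        exact h
      · rw [ψ_other l h3 h2] at h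
        exact h
  · exfalso
    by_cases h2 : π x = j
    · rw [ψ_j hij l h2] at h
      exact h
    · rw [ψ_other l h1 h2] at h
      exact h

/-- new adjacency -/
def newAdj (a b : NewV G π i j s ι) : Prop :=
  base a b ∨ base b a ∨ ∃ l x y, G.Adj x y ∧ ψ l x = a ∧ ψ l y = b

theorem newAdj_part (hij : i ≠ j) (hπ : ∀ x y, G.Adj x y → π x ≠ π y)
    {a b : NewV G π i j s ι} (h : newAdj a b) : newPart a ≠ newPart b := by
  have hb : ∀ a b : NewV G π i j s ι, base a b → newPart a ≠ newPart b := by
    intro a b h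
    match a, b, h with
    | Sum.inl f, Sum.inr (Sum.inl g), _ => simpa [newPart] using hij
  rcases h with h | h | ⟨l, x, y, h, rfl, rfl⟩
  · exact hb _ _ h
  · exact (hb _ _ h).symm
  · rw [newPart_ψ, newPart_ψ]
    exact hπ x y h

theorem newAdj_ψ (hij : i ≠ j) (hπ : ∀ x y, G.Adj x y → π x ≠ π y)
    (l : Line (Alph G π i j s) ι) (x y : V) : newAdj (ψ l x) (ψ l y) ↔ G.Adj x y := by
  constructor
  · rintro (h | h | ⟨l', x', y', h, hx, hy⟩)
    · exact (base_ψ hij l h).2.2
    · exact (base_ψ hij l h).2.2.symm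
    · have hpx : π x' = π x := by rw [← newPart_ψ l' x', hx, newPart_ψ]
      have hpy : π y' = π y := by rw [← newPart_ψ l' y', hy, newPart_ψ]
      have hne := hπ x' y' h
      by_cases hxo : π x ≠ i ∧ π x ≠ j
      · rw [ψ_other l hxo.1 hxo.2, ψ_other l' (hpx ▸ hxo.1) (hpx ▸ hxo.2)] at hx
        obtain ⟨rfl, rfl⟩ := Prod.mk.inj (Sum.inr_injective (Sum.inr_injective hx))
        rw [← ψ_inj hij _ hy]
        exact h
      · by_cases hyo : π y ≠ i ∧ π y ≠ j
        · rw [ψ_other l hyo.1 hyo.2, ψ_other l' (hpy ▸ hyo.1) (hpy ▸ hyo.2)] at hy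
          obtain ⟨rfl, rfl⟩ := Prod.mk.inj (Sum.inr_injective (Sum.inr_injective hy))
          rw [← ψ_inj hij _ hx]
          exact h
        · have hx3 : π x = i ∨ π x = j := by
            by_contra hcon
            push Not at hcon
            exact hxo hcon
          have hy3 : π y = i ∨ π y = j := by
            by_contra hcon
            push Not at hcon
            exact hyo hcon
          rcases hx3 with hxi | hxj
          · rcases hy3 with hyi | hyj
            · exact absurd (hpx.trans (hxi.trans (hyi.symm.trans hpy.symm))) hne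
            · rw [ψ_i l hxi, ψ_i l' (hpx.trans hxi)] at hx
              rw [ψ_j hij l hyj, ψ_j hij l' (hpy.trans hyj)] at hy
              have h1 := Sum.inl_injective hx
              have h2 := Sum.inl_injective (Sum.inr_injective hy)
              rw [← rel_line l, ← h1, ← h2, rel_line l']
              exact h
          · rcases hy3 with hyi | hyj
            · rw [ψ_j hij l hxj, ψ_j hij l' (hpx.trans hxj)] at hx
              rw [ψ_i l hyi, ψ_i l' (hpy.trans hyi)] at hy
              have h1 := Sum.inl_injective (Sum.inr_injective hx)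
              have h2 := Sum.inl_injective hy
              apply SimpleGraph.Adj.symm
              rw [← rel_line l, ← h1, ← h2, rel_line l']
              exact h.symm
            · exact absurd (hpx.trans (hxj.trans (hyj.symm.trans hpy.symm))) hne
  · intro h
    exact Or.inr (Or.inr ⟨l, x, y, h, rfl, rfl⟩)

/-- the new graph -/
def newGraph (hij : i ≠ j) (hπ : ∀ x y, G.Adj x y → π x ≠ π y) :
    SimpleGraph (NewV G π i j s ι) where
  Adj := newAdj
  symm := ⟨by
    rintro a b (h | h | ⟨l, x, y, h, hx, hy⟩)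
    · exact Or.inr (Or.inl h)
    · exact Or.inl h
    · exact Or.inr (Or.inr ⟨l, y, x, h.symm, hy, hx⟩)⟩
  loopless := ⟨fun a h => newAdj_part hij hπ h rfl⟩

theorem newGraph_noClique (hij : i ≠ j) (hπ : ∀ x y, G.Adj x y → π x ≠ π y) {k : ℕ}
    (hk : 3 ≤ k) (hG : NoClique k G) :
    NoClique k (newGraph (s := s) (ι := ι) hij hπ) := by
  intro q hq
  have hpart : ∀ a b, a ≠ b → newPart (q a) ≠ newPart (q b) := fun a b hab =>
    newAdj_part hij hπ (hq a b hab)
  -- one of the first three vertices is outside parts `i`, `j`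
  obtain ⟨t₀, ht₀i, ht₀j⟩ : ∃ t, newPart (q t) ≠ i ∧ newPart (q t) ≠ j := by
    by_contra hcon
    push Not at hcon
    have h01 := hpart ⟨0, by omega⟩ ⟨1, by omega⟩ (by simp)
    have h02 := hpart ⟨0, by omega⟩ ⟨2, by omega⟩ (by simp)
    have h12 := hpart ⟨1, by omega⟩ ⟨2, by omega⟩ (by simp)
    have c0 := hcon ⟨0, by omega⟩
    have c1 := hcon ⟨1, by omega⟩
    have c2 := hcon ⟨2, by omega⟩
    by_cases e0 : newPart (q ⟨0, by omega⟩) = i
    · by_cases e1 : newPart (q ⟨1, by omega⟩) = i
      · exact h01 (e0.trans e1.symm)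
      · by_cases e2 : newPart (q ⟨2, by omega⟩) = i
        · exact h02 (e0.trans e2.symm)
        · exact h12 ((c1 e1).trans (c2 e2).symm)
    · by_cases e1 : newPart (q ⟨1, by omega⟩) = i
      · by_cases e2 : newPart (q ⟨2, by omega⟩) = i
        · exact h12 (e1.trans e2.symm)
        · exact h02 ((c0 e0).trans (c2 e2).symm)
      · exact h01 ((c0 e0).trans (c1 e1).symm)
  obtain ⟨x₀, l₀, hq₀⟩ : ∃ x₀ l₀, q t₀ = Sum.inr (Sum.inr (x₀, l₀)) := by
    match h : q t₀ with
    | Sum.inl f =>
      exfalso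
      rw [h] at ht₀i
      exact ht₀i rfl
    | Sum.inr (Sum.inl f) =>
      exfalso
      rw [h] at ht₀j
      exact ht₀j rfl
    | Sum.inr (Sum.inr (x, l)) => exact ⟨x, l, rfl⟩
  -- everything lies in the copy of `l₀`
  have hcopy : ∀ t, ∃ y, ψ l₀ y = q t := by
    intro t
    -- take another vertex `t'` adjacent to `t₀`; treat `t = t₀` via any other vertex
    have key : ∀ t, t ≠ t₀ → ∃ x y, ψ l₀ x = q t₀ ∧ ψ l₀ y = q t := by
      intro t ht
      have hadj : newAdj (q t₀) (q t) := hq t₀ t (Ne.symm ht)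
      rcases hadj with h | h | ⟨l, x, y, h, hx, hy⟩
      · rw [hq₀] at h
        exact absurd h (by intro h'; exact h')
      · rw [hq₀] at h
        exfalso
        match hqt : q t with
        | Sum.inl f => rw [hqt] at h; exact h
        | Sum.inr f => rw [hqt] at h; exact h
      · have hpx : π x = newPart (q t₀) := by rw [← hx, newPart_ψ]
        have hx' := hx
        rw [ψ_other l (by rw [hpx]; exact ht₀i) (by rw [hpx]; exact ht₀j), hq₀] at hx'
        obtain ⟨_, rfl⟩ := Prod.mk.inj (Sum.inr_injective (Sum.inr_injective hx'))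
        exact ⟨x, y, hx, hy⟩
    by_cases ht : t = t₀
    · subst ht
      obtain ⟨t', ht'⟩ : ∃ t' : Fin k, t' ≠ t := by
        by_cases h0 : t = ⟨0, by omega⟩
        · exact ⟨⟨1, by omega⟩, by rw [h0]; simp⟩
        · exact ⟨⟨0, by omega⟩, Ne.symm h0⟩
      obtain ⟨x, _, hx, _⟩ := key t' ht'
      exact ⟨x, hx⟩
    · obtain ⟨_, y, _, hy⟩ := key t ht
      exact ⟨y, hy⟩
  choose y hy using hcopy
  apply hG y
  intro a b hab
  have h1 : newAdj (q a) (q b) := hq a b hab
  rw [← hy a, ← hy b, newAdj_ψ hij hπ] at h1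
  exact h1

end Step

/-- One step of the partite construction. -/
theorem one_step {V : Type} [Finite V] (G : SimpleGraph V) (π : V → ℕ)
    (hπ : ∀ x y, G.Adj x y → π x ≠ π y) {k : ℕ} (hk : 3 ≤ k) (hG : NoClique k G)
    (i j : ℕ) (hij : i ≠ j) (s : Prop) (C : Type) [Finite C] :
    ∃ (V' : Type) (_ : Finite V') (G' : SimpleGraph V') (π' : V' → ℕ),
      (∀ x y, G'.Adj x y → π' x ≠ π' y) ∧ NoClique k G' ∧
      ∀ χ : V' → V' → C, ∃ φ : V → V', Function.Injective φ ∧
        (∀ x y, G'.Adj (φ x) (φ y) ↔ G.Adj x y) ∧ (∀ x, π' (φ x) = π x) ∧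
        ∃ c, ∀ x y, π x = i → π y = j → (G.Adj x y ↔ s) → χ (φ x) (φ y) = c := by
  classical
  have : Finite (Alph G π i j s) := by unfold Alph; infer_instance
  obtain ⟨ι, _, hι⟩ := Line.exists_mono_in_high_dimension (Alph G π i j s) C
  have : Finite (Line (Alph G π i j s) ι) :=
    Finite.of_injective (fun l : Line (Alph G π i j s) ι => l.idxFun) (by
      intro l m h
      exact Line.ext h)
  refine ⟨NewV G π i j s ι, inferInstance, newGraph hij hπ, newPart,
    fun x y h => newAdj_part hij hπ h, newGraph_noClique hij hπ hk hG, fun χ => ?_⟩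
  obtain ⟨l, c, hc⟩ := hι fun F =>
    χ (Sum.inl fun a => (F a).1.1) (Sum.inr (Sum.inl fun a => (F a).1.2))
  refine ⟨ψ l, ψ_inj hij l, newAdj_ψ hij hπ l, newPart_ψ l, c, fun x y hx hy hs => ?_⟩
  have h1 := hc ⟨(x, y), hx, hy, hs⟩
  rw [ψ_i l hx, ψ_j hij l hy, ← h1]
  congr 2
  · funext a
    unfold lineFst
    rw [Line.coe_apply]
    cases l.idxFun a <;> rfl
  · congr 1
    funext a
    unfold lineSnd
    rw [Line.coe_apply]
    cases l.idxFun a <;> rfl

end Pool.Agent.H17.Split
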