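import Mathlib
import Pool.Agent.H17.Split.Partite

/-!
Ramsey theorem for colourings of pairs of vertices in `K_k`-free graphs
(Nešetřil–Rödl, by the partite construction).
-/

namespace Pool.Agent.H17.Split

/-- iterate `one_step` over a list of triples -/
theorem steps {V : Type} [Finite V] (G : SimpleGraph V) (π : V → ℕ)
    (hπ : ∀ x y, G.Adj x y → π x ≠ π y) {k : ℕ} (hk : 3 ≤ k) (hG : NoClique k G)
    (C : Type) [Finite C] (ts : List (ℕ × ℕ × Bool)) (hts : ∀ t ∈ ts, t.1 ≠ t.2.1) :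
    ∃ (V' : Type) (_ : Finite V') (G' : SimpleGraph V') (π' : V' → ℕ),
      (∀ x y, G'.Adj x y → π' x ≠ π' y) ∧ NoClique k G' ∧
      ∀ χ : V' → V' → C, ∃ φ : V → V', Function.Injective φ ∧
        (∀ x y, G'.Adj (φ x) (φ y) ↔ G.Adj x y) ∧ (∀ x, π' (φ x) = π x) ∧
        ∀ t ∈ ts, ∃ c, ∀ x y, π x = t.1 → π y = t.2.1 → (G.Adj x y ↔ t.2.2 = true) →
          χ (φ x) (φ y) = c := by
  induction ts with
  | nil =>
    refine ⟨V, inferInstance, G, π, hπ, hG, fun χ => ⟨id, Function.injective_id, by simp,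
      by simp, by simp⟩⟩
  | cons t ts ih =>
    obtain ⟨V₁, _, G₁, π₁, hπ₁, hG₁, h₁⟩ := ih fun t ht => hts t (List.mem_cons_of_mem _ ht)
    obtain ⟨V₂, hV₂, G₂, π₂, hπ₂, hG₂, h₂⟩ := one_step G₁ π₁ hπ₁ hk hG₁ t.1 t.2.1
      (hts t List.mem_cons_self) (t.2.2 = true) C
    refine ⟨V₂, hV₂, G₂, π₂, hπ₂, hG₂, fun χ => ?_⟩
    obtain ⟨φ₂, hi₂, ha₂, hp₂, c, hc⟩ := h₂ χ
    obtain ⟨φ₁, hi₁, ha₁, hp₁, hc₁⟩ := h₁ fun x y => χ (φ₂ x) (φ₂ y)
    refine ⟨φ₂ ∘ φ₁, hi₂.comp hi₁, fun x y => ?_, fun x => ?_, fun t' ht' => ?_⟩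
    · simp only [Function.comp]
      rw [ha₂, ha₁]
    · simp only [Function.comp]
      rw [hp₂, hp₁]
    · rcases List.mem_cons.mp ht' with rfl | ht'
      · refine ⟨c, fun x y hx hy hs => ?_⟩
        exact hc (φ₁ x) (φ₁ y) ((hp₁ x).trans hx) ((hp₁ y).trans hy) (by rw [ha₁]; exact hs)
      · obtain ⟨c', hc'⟩ := hc₁ t' ht'
        exact ⟨c', fun x y hx hy hs => hc' x y hx hy hs⟩

/-- the starting system -/
def start {m : ℕ} (G : SimpleGraph (Fin m)) (r : ℕ) : SimpleGraph ((Fin m ↪o Fin r) × Fin m) where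
  Adj a b := a.1 = b.1 ∧ G.Adj a.2 b.2
  symm := ⟨fun _ _ h => ⟨h.1.symm, h.2.symm⟩⟩
  loopless := ⟨fun _ h => G.irrefl h.2⟩

/-- Nešetřil–Rödl for pairs in `K_k`-free graphs -/
theorem nr {k : ℕ} (hk : 3 ≤ k) {m : ℕ} (G : SimpleGraph (Fin m)) (hG : NoClique k G)
    (C : Type) [Finite C] [Nonempty C] :
    ∃ (h : ℕ) (H : SimpleGraph (Fin h)), NoClique k H ∧
      ∀ χ : Fin h → Fin h → C, ∃ φ : Fin m → Fin h, Function.Injective φ ∧
        (∀ x y, H.Adj (φ x) (φ y) ↔ G.Adj x y) ∧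
        ∃ a b, (∀ x y, x < y → G.Adj x y → χ (φ x) (φ y) = a) ∧
          (∀ x y, x < y → ¬ G.Adj x y → χ (φ x) (φ y) = b) := by
  classical
  obtain ⟨r, hr⟩ := ramsey (C × C) m
  set P := start G r with hP
  have hπ : ∀ x y, P.Adj x y → ((x.1 x.2 : Fin r) : ℕ) ≠ ((y.1 y.2 : Fin r) : ℕ) := by
    rintro ⟨e, u⟩ ⟨e', u'⟩ ⟨h1, h2⟩ h3
    simp only at h1 h2 h3
    subst h1
    have h4 := e.injective (Fin.ext h3)
    rw [h4] at h2
    exact G.irrefl h2
  have hcl : NoClique k P := by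
    intro q hq
    apply hG fun t => (q t).2
    intro i j hij
    exact (hq i j hij).2
  -- all triples
  set ts : List (ℕ × ℕ × Bool) :=
    (((Finset.range r ×ˢ (Finset.range r ×ˢ (Finset.univ : Finset Bool))).filter
      fun t => t.1 < t.2.1).toList) with hts
  have hts' : ∀ t, t ∈ ts ↔ t.1 < r ∧ t.2.1 < r ∧ t.1 < t.2.1 := by
    rintro ⟨i, j, s⟩
    rw [hts, Finset.mem_toList]
    simp only [Finset.mem_filter, Finset.mem_product, Finset.mem_range, Finset.mem_univ, and_true]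
    tauto
  obtain ⟨V', hV', G', π', hπ', hG', h⟩ := steps P (fun x => ((x.1 x.2 : Fin r) : ℕ)) hπ hk hcl C ts
    (fun t ht => ne_of_lt ((hts' t).mp ht).2.2)
  have := Fintype.ofFinite V'
  set eq := Fintype.equivFin V' with heq
  refine ⟨Fintype.card V', G'.comap eq.symm, ?_, fun χ => ?_⟩
  · intro q hq
    apply hG' fun t => eq.symm (q t)
    intro i j hij
    exact hq i j hij
  · obtain ⟨φ, hφi, hφa, hφp, hφc⟩ := h fun x y => χ (eq x) (eq y)
    -- colours
    have hcol : ∀ (i j : Fin r) (s : Bool), i < j → ∃ c, ∀ x y : (Fin m ↪o Fin r) × Fin m,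
        ((x.1 x.2 : Fin r) : ℕ) = i → ((y.1 y.2 : Fin r) : ℕ) = j → (P.Adj x y ↔ s = true) →
        χ (eq (φ x)) (eq (φ y)) = c := by
      intro i j s hij
      obtain ⟨c, hc⟩ := hφc (i.val, j.val, s) ((hts' _).mpr ⟨i.isLt, j.isLt, hij⟩)
      exact ⟨c, hc⟩
    choose! col hcol using hcol
    obtain ⟨e, he, c, hc⟩ := hr fun i j => (col i j true, col i j false)
    set E : Fin m ↪o Fin r := OrderEmbedding.ofStrictMono e he with hE
    refine ⟨fun u => eq (φ (E, u)), ?_, ?_, c.1, c.2, ?_, ?_⟩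
    · intro u u' huu
      have h1 := hφi (eq.injective huu)
      exact (Prod.mk.inj h1).2
    · intro x y
      rw [SimpleGraph.comap_adj]
      simp only [Equiv.symm_apply_apply]
      rw [hφa]
      constructor
      · intro h
        exact h.2
      · intro h
        exact ⟨rfl, h⟩
    · intro x y hxy hadj
      have h1 := hc x y hxy
      have h2 : col (e x) (e y) true = c.1 := congrArg Prod.fst h1
      rw [← h2]
      apply hcol (e x) (e y) true (he hxy) (E, x) (E, y)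
      · rfl
      · rfl
      · simp only [iff_true]
        exact ⟨rfl, hadj⟩
    · intro x y hxy hadj
      have h1 := hc x y hxy
      have h2 : col (e x) (e y) false = c.2 := congrArg Prod.snd h1
      rw [← h2]
      apply hcol (e x) (e y) false (he hxy) (E, x) (E, y)
      · rfl
      · rfl
      · simp only [Bool.false_eq_true, iff_false]
        intro h
        exact hadj h.2

end Pool.Agent.H17.Split
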