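import Mathlib
import Pool.Agent.H17.Split.NR

/-!
Universal graphs and homogeneous sets of neighbours.
-/

namespace Pool.Agent.H17.Split

open Finset

/-- A finite `K_k`-free graph containing all `K_k`-free graphs on at most `q` vertices. -/
theorem universal (k q : ℕ) (hk : 3 ≤ k) : ∃ (m : ℕ) (G : SimpleGraph (Fin m)), NoClique k G ∧
    ∀ (W : Type) [Fintype W] (F : SimpleGraph W), Fintype.card W ≤ q → NoClique k F →
      ∃ f : W → Fin m, Function.Injective f ∧ ∀ x y, G.Adj (f x) (f y) ↔ F.Adj x y := by
  classical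
  let U : Type := {F : SimpleGraph (Fin q) // NoClique k F} × Fin q
  let GU : SimpleGraph U :=
    { Adj := fun a b => a.1 = b.1 ∧ a.1.1.Adj a.2 b.2
      symm := ⟨fun a b h => ⟨h.1.symm, by rw [← h.1]; exact h.2.symm⟩⟩
      loopless := ⟨fun a h => a.1.1.irrefl h.2⟩ }
  have : Fintype U := Fintype.ofFinite U
  set eq := Fintype.equivFin U with heq
  refine ⟨Fintype.card U, GU.comap eq.symm, ?_, ?_⟩
  · intro c hc
    have h0 : ∀ i, (eq.symm (c i)).1 = (eq.symm (c ⟨0, by omega⟩)).1 := by
      intro i
      by_cases hi : i = ⟨0, by omega⟩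
      · rw [hi]
      · exact (hc i _ hi).1
    apply (eq.symm (c ⟨0, by omega⟩)).1.2 fun t => (eq.symm (c t)).2
    intro i j hij
    have h1 := (hc i j hij).2
    rw [h0 i] at h1
    exact h1
  · intro W _ F hW hF
    have hcard : Fintype.card W ≤ Fintype.card (Fin q) := by simpa using hW
    obtain ⟨ι⟩ := Function.Embedding.nonempty_of_card_le hcard
    have hFm : NoClique k (F.map ι) := by
      intro c hc
      have hex : ∀ t, ∃ w, ι w = c t := by
        intro t
        obtain ⟨t', ht'⟩ : ∃ t' : Fin k, t' ≠ t := by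
          by_cases h0 : t = ⟨0, by omega⟩
          · exact ⟨⟨1, by omega⟩, by rw [h0]; simp⟩
          · exact ⟨⟨0, by omega⟩, Ne.symm h0⟩
        have h1 := hc t t' (Ne.symm ht')
        rw [SimpleGraph.map_adj] at h1
        obtain ⟨u, v, _, hu, _⟩ := h1
        exact ⟨u, hu⟩
      choose w hw using hex
      apply hF w
      intro i j hij
      have h1 := hc i j hij
      rw [← hw i, ← hw j, SimpleGraph.map_adj_apply] at h1
      exact h1
    refine ⟨fun w => eq (⟨F.map ι, hFm⟩, ι w), ?_, ?_⟩
    · intro x y hxy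
      have h1 := eq.injective hxy
      exact ι.injective (Prod.mk.inj h1).2
    · intro x y
      rw [SimpleGraph.comap_adj]
      simp only [Equiv.symm_apply_apply]
      change (_ ∧ (F.map ι).Adj (ι x) (ι y)) ↔ _
      rw [SimpleGraph.map_adj_apply]
      simp

/-- Homogeneous independent sets of neighbours, for every vertex of a copy of a bounded graph. -/
theorem homog (k h M : ℕ) (hk : 3 ≤ k) : ∃ D : ℕ, ∀ (p : ℕ) (γ : SimpleGraph (Fin p)),
    NoClique k γ → ∀ e : Fin h → Fin p, Function.Injective e →
    (∀ v, ∃ N : Finset (Fin p), D ≤ N.card ∧ ∀ x ∈ N, γ.Adj (e v) x) →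
    ∃ (P A : Fin h → Fin h → Prop) (w : Fin h → Fin M → Fin p),
      (∀ v, P v v) ∧ (∀ v s u, γ.Adj (w v s) (e u) ↔ P v u) ∧ (∀ v s u, w v s ≠ e u) ∧
      (∀ v, Function.Injective (w v)) ∧ (∀ v s t, ¬ γ.Adj (w v s) (w v t)) ∧
      (∀ u v, u ≠ v → ∀ s t, (γ.Adj (w u s) (w v t) ↔ A u v)) := by
  classical
  obtain ⟨L, hL⟩ := ramsey (Fin h → Fin h → Bool) (h * (M + k))
  refine ⟨h + 2 ^ h * L, fun p γ hγ e he hdeg => ?_⟩
  -- fibres
  have hfib : ∀ v, ∃ (τ : Fin h → Bool) (W : Fin L → Fin p), Function.Injective W ∧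
      ∀ i, γ.Adj (e v) (W i) ∧ (∀ u, W i ≠ e u) ∧ ∀ u, decide (γ.Adj (W i) (e u)) = τ u := by
    intro v
    obtain ⟨N, hN, hNadj⟩ := hdeg v
    have hcard : (univ : Finset (Fin h → Bool)).card * L ≤ (N \ univ.image e).card := by
      have h1 := le_card_sdiff (univ.image e) N
      have h2 : (univ.image e).card ≤ h := by
        refine card_image_le.trans ?_
        simp
      have h3 : (univ : Finset (Fin h → Bool)).card = 2 ^ h := by simp
      rw [h3]
      omega
    obtain ⟨τ, _, hτ⟩ := exists_le_card_fiber_of_mul_le_card_of_maps_to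
      (s := N \ univ.image e) (t := (univ : Finset (Fin h → Bool)))
      (f := fun x => fun u => decide (γ.Adj x (e u))) (fun a _ => mem_univ _) univ_nonempty hcard
    refine ⟨τ, fun i => (Finset.orderEmbOfCardLe _ hτ) i, (Finset.orderEmbOfCardLe _ hτ).injective,
      fun i => ?_⟩
    have h1 := orderEmbOfCardLe_mem _ hτ i
    rw [mem_filter, mem_sdiff] at h1
    refine ⟨hNadj _ h1.1.1, fun u hu => h1.1.2 ?_, fun u => congrFun h1.2 u⟩
    exact mem_image.mpr ⟨u, mem_univ _, hu.symm⟩
  choose τ W hWinj hW using hfib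
  obtain ⟨e', he', c, hc⟩ := hL fun i j => fun u v => decide (γ.Adj (W u i) (W v j))
  have hlt : ∀ (u v : Fin h) (s t : Fin (M + k)), u < v →
      finProdFinEquiv (u, s) < finProdFinEquiv (v, t) := by
    intro u v s t huv
    rw [Fin.lt_def]
    simp only [finProdFinEquiv_apply_val]
    have h1 : (M + k) * (u.val + 1) ≤ (M + k) * v.val := Nat.mul_le_mul_left _ huv
    have h2 : (M + k) * (u.val + 1) = (M + k) * u.val + (M + k) := by ring
    have h3 := s.isLt
    omega
  have hle : M ≤ M + k := Nat.le_add_right _ _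
  refine ⟨fun v u => τ v u = true, fun u v => if u < v then c u v = true else c v u = true,
    fun v s => W v (e' (finProdFinEquiv (v, Fin.castLE hle s))), ?_, ?_, ?_, ?_, ?_, ?_⟩
  · intro v
    -- needs an element of `Fin L`
    have hpos : 0 < h * (M + k) := Nat.mul_pos (Fin.pos v) (by omega)
    have h1 := hW v (e' ⟨0, hpos⟩)
    have h2 := h1.2.2 v
    simp only [← h2]
    simpa using h1.1.symm
  · intro v s u
    have h1 := (hW v (e' (finProdFinEquiv (v, Fin.castLE hle s)))).2.2 u
    simp only [← h1, decide_eq_true_eq]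
  · intro v s u
    exact (hW v _).2.1 u
  · intro v s t hst
    have h1 := hWinj v hst
    have h2 := finProdFinEquiv.injective (he'.injective h1)
    have h3 := (Prod.mk.inj h2).2
    exact Fin.castLE_injective hle h3
  · intro v s t hadj
    have hne : s ≠ t := by
      rintro rfl
      exact γ.irrefl hadj
    -- the constant colour
    have hcv : c v v = true := by
      rcases lt_or_gt_of_ne hne with hlt' | hlt'
      · have h1 := hc (finProdFinEquiv (v, Fin.castLE hle s)) (finProdFinEquiv (v, Fin.castLE hle t))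
          (by
            rw [Fin.lt_def]
            simp only [finProdFinEquiv_apply_val, Fin.val_castLE]
            have : s.val < t.val := hlt'
            omega)
        rw [← h1]
        simpa using hadj
      · have h1 := hc (finProdFinEquiv (v, Fin.castLE hle t)) (finProdFinEquiv (v, Fin.castLE hle s))
          (by
            rw [Fin.lt_def]
            simp only [finProdFinEquiv_apply_val, Fin.val_castLE]
            have : t.val < s.val := hlt'
            omega)
        rw [← h1]
        simpa using hadj.symm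
    -- a clique of size `k`
    have hkle : k ≤ h * (M + k) := by
      have h1 : 1 ≤ h := Fin.pos v
      nlinarith
    apply hγ fun i => W v (e' (Fin.castLE hkle i))
    intro i j hij
    rcases lt_or_gt_of_ne hij with hij | hij
    · have h1 := hc (Fin.castLE hkle i) (Fin.castLE hkle j) (by
        rw [Fin.lt_def]
        simpa using hij)
      rw [← h1] at hcv
      simpa using hcv
    · have h1 := hc (Fin.castLE hkle j) (Fin.castLE hkle i) (by
        rw [Fin.lt_def]
        simpa using hij)
      rw [← h1] at hcv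
      apply SimpleGraph.Adj.symm
      simpa using hcv
  · intro u v huv s t
    rcases lt_or_gt_of_ne huv with h1 | h1
    · have h2 := hc _ _ (hlt u v (Fin.castLE hle s) (Fin.castLE hle t) h1)
      beta_reduce
      rw [if_pos h1, ← h2]
      simp
    · have h2 := hc _ _ (hlt v u (Fin.castLE hle t) (Fin.castLE hle s) h1)
      beta_reduce
      rw [if_neg (not_lt.mpr (le_of_lt h1)), ← h2]
      simp only [decide_eq_true_eq]
      exact ⟨fun h => h.symm, fun h => h.symm⟩

end Pool.Agent.H17.Split
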