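import Mathlib
import Pool.Agent.H17.Split.Homog

/-!
Corona / blow-up dichotomy.
-/

namespace Pool.Agent.H17.Split

open Finset

/-- two disjoint cliques of size `k - 1` -/
def twoCliques (K : ℕ) : SimpleGraph (Bool × Fin K) where
  Adj a b := a.1 = b.1 ∧ a.2 ≠ b.2
  symm := ⟨fun _ _ h => ⟨h.1.symm, h.2.symm⟩⟩
  loopless := ⟨fun _ h => h.2 rfl⟩

theorem twoCliques_noClique (K : ℕ) : NoClique (K + 1) (twoCliques K) := by
  intro q hq
  have hinj : Function.Injective fun i => (q i).2 := by
    intro i j hij
    by_contra hne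
    exact (hq i j hne).2 hij
  have := Fintype.card_le_of_injective _ hinj
  simp at this

theorem bot_noClique (k n : ℕ) (hk : 2 ≤ k) : NoClique k (⊥ : SimpleGraph (Fin n)) := by
  intro q hq
  exact hq ⟨0, by omega⟩ ⟨1, by omega⟩ (by simp)

/-- a vertex joined to a clique of size `K` gives a clique of size `K + 1` -/
theorem clique_extend {K p : ℕ} {γ : SimpleGraph (Fin p)} (hγ : NoClique (K + 1) γ)
    (y : Fin p) (c : Fin K → Fin p) (hc : ∀ i j, i ≠ j → γ.Adj (c i) (c j))
    (hy : ∀ i, γ.Adj y (c i)) : False := by
  apply hγ (Fin.cons y c : Fin (K + 1) → Fin p)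
  intro i j hij
  induction i using Fin.cases with
  | zero =>
    induction j using Fin.cases with
    | zero => exact absurd rfl hij
    | succ j => simpa using hy j
  | succ i =>
    induction j using Fin.cases with
    | zero => simpa using (hy i).symm
    | succ j => simpa using hc i j (fun h => hij (by rw [h]))

theorem keyZ (K q : ℕ) (hK : 2 ≤ K) (hq : 2 * K ≤ q) :
    ∃ (h : ℕ) (H : SimpleGraph (Fin h)), NoClique (K + 1) H ∧ (∃ x y, H.Adj x y) ∧
      ∀ M : ℕ, 0 < M → ∃ D : ℕ, ∀ (p : ℕ) (γ : SimpleGraph (Fin p)), NoClique (K + 1) γ →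
      ∀ e : Fin h → Fin p, Function.Injective e → (∀ x y, γ.Adj (e x) (e y) ↔ H.Adj x y) →
      (∀ v, ∃ N : Finset (Fin p), D ≤ N.card ∧ ∀ x ∈ N, γ.Adj (e v) x) →
      ∀ (W : Type) [Fintype W] (F : SimpleGraph W), Fintype.card W ≤ q → NoClique (K + 1) F →
      ∃ (x : W → Fin p) (w : W → Fin M → Fin p), Function.Injective x ∧
        (∀ a b, γ.Adj (x a) (x b) ↔ F.Adj a b) ∧ (∀ a s b, γ.Adj (w a s) (x b) ↔ a = b) ∧
        (∀ a s b, w a s ≠ x b) ∧ (∀ a s b t, w a s = w b t → a = b ∧ s = t) ∧
        ((∀ a s b t, ¬ γ.Adj (w a s) (w b t)) ∨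
          (∀ a s b t, γ.Adj (w a s) (w b t) ↔ F.Adj a b)) := by
  classical
  obtain ⟨m, G₀, hG₀, huniv⟩ := universal (K + 1) q (by omega)
  obtain ⟨h, H, hH, hcolH⟩ := nr (k := K + 1) (by omega) G₀ hG₀ (Bool × Bool × Bool)
  -- two disjoint cliques in `G₀`
  obtain ⟨tc, htci, htca⟩ := huniv (Bool × Fin K) (twoCliques K) (by simpa using hq)
    (twoCliques_noClique K)
  -- an independent set
  obtain ⟨ind, hindi, hinda⟩ := huniv (Fin (K + 1)) ⊥ (by simp; omega)
    (bot_noClique _ _ (by omega))
  refine ⟨h, H, hH, ?_, fun M hM => ?_⟩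
  · obtain ⟨φ, _, hφa, _⟩ := hcolH fun _ _ => (true, true, true)
    refine ⟨φ (tc (true, ⟨0, by omega⟩)), φ (tc (true, ⟨1, by omega⟩)), ?_⟩
    rw [hφa, htca]
    exact ⟨rfl, by simp⟩
  · obtain ⟨D, hD⟩ := homog (K + 1) h M (by omega)
    refine ⟨D, fun p γ hγ e he heH hdeg W _ F hWq hF => ?_⟩
    obtain ⟨P, A, w, hPv, hP, hwe, hwinj, hwind, hA⟩ := hD p γ hγ e he hdeg
    obtain ⟨φ, hφi, hφa, a, b, ha, hb⟩ := hcolH fun x y =>
      (decide (A x y), decide (P x y), decide (P y x))
    have s0 : Fin M := ⟨0, hM⟩
    have hAsymm : ∀ u v, u ≠ v → A u v → A v u := by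
      intro u v huv h1
      rw [← hA v u huv.symm s0 s0]
      exact ((hA u v huv s0 s0).mpr h1).symm
    -- (1) `A` fails on nonadjacent pairs
    have hb1 : b.1 = false := by
      by_contra hcon
      have hcon' : b.1 = true := by simpa using hcon
      apply hγ fun t => w (φ (ind t)) s0
      intro i j hij
      have hne : ind i ≠ ind j := fun h => hij (hindi h)
      have hnadj : ∀ i j, ¬ G₀.Adj (ind i) (ind j) := by
        intro i j h
        rw [hinda] at h
        exact h
      rw [hA _ _ (fun h => hne (hφi h)) s0 s0]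
      rcases lt_or_gt_of_ne hne with hlt | hlt
      · have h1 := hb _ _ hlt (hnadj i j)
        have h2 := congrArg Prod.fst h1
        rw [hcon'] at h2
        simpa using h2
      · have h1 := hb _ _ hlt (hnadj j i)
        have h2 := congrArg Prod.fst h1
        rw [hcon'] at h2
        apply hAsymm _ _ (fun h => hne (hφi h).symm)
        simpa using h2
    -- no vertex outside or inside a clique is complete to it
    have hnoP : ∀ (v : Fin h) (c : Fin K → Fin m), (∀ i j, i ≠ j → G₀.Adj (c i) (c j)) →
        (∀ i, P v (φ (c i))) → False := by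
      intro v c hc hv
      apply clique_extend hγ (w v s0) (fun i => e (φ (c i)))
      · intro i j hij
        rw [heH, hφa]
        exact hc i j hij
      · intro i
        rw [hP]
        exact hv i
    have hcl : ∀ t, ∀ i j : Fin K, i ≠ j → G₀.Adj (tc (t, i)) (tc (t, j)) := by
      intro t i j hij
      rw [htca]
      exact ⟨rfl, hij⟩
    -- (2)
    have hKpos : 0 < K := by omega
    have : Nonempty (Fin K) := ⟨⟨0, hKpos⟩⟩
    have ha2 : a.2.1 = false := by
      by_contra hcon
      have hcon' : a.2.1 = true := by simpa using hcon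
      obtain ⟨i₀, hi₀⟩ := Finite.exists_min fun i : Fin K => tc (true, i)
      apply hnoP (φ (tc (true, i₀))) (fun i => tc (true, i)) (hcl true)
      intro i
      by_cases hi : i = i₀
      · rw [hi]
        exact hPv _
      · have hlt : tc (true, i₀) < tc (true, i) := lt_of_le_of_ne (hi₀ i) (fun h => hi
          (Prod.mk.inj (htci h)).2.symm)
        have h1 := ha _ _ hlt (hcl true i₀ i (Ne.symm hi))
        have h2 := congrArg (fun z => z.2.1) h1
        rw [hcon'] at h2
        simpa using h2
    have ha3 : a.2.2 = false := by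
      by_contra hcon
      have hcon' : a.2.2 = true := by simpa using hcon
      obtain ⟨i₀, hi₀⟩ := Finite.exists_max fun i : Fin K => tc (true, i)
      apply hnoP (φ (tc (true, i₀))) (fun i => tc (true, i)) (hcl true)
      intro i
      by_cases hi : i = i₀
      · rw [hi]
        exact hPv _
      · have hlt : tc (true, i) < tc (true, i₀) := lt_of_le_of_ne (hi₀ i) (fun h => hi
          (Prod.mk.inj (htci h)).2)
        have h1 := ha _ _ hlt (hcl true i i₀ hi)
        have h2 := congrArg (fun z => z.2.2) h1
        rw [hcon'] at h2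
        simpa using h2
    have hb2 : b.2.1 = false := by
      by_contra hcon
      have hcon' : b.2.1 = true := by simpa using hcon
      obtain ⟨i₀, hi₀⟩ := Finite.exists_min fun i : Bool × Fin K => tc i
      apply hnoP (φ (tc i₀)) (fun i => tc (!i₀.1, i)) (hcl _)
      intro i
      have hne : i₀ ≠ (!i₀.1, i) := by
        intro h
        have := congrArg Prod.fst h
        simp at this
      have hlt : tc i₀ < tc (!i₀.1, i) := lt_of_le_of_ne (hi₀ _) (fun h => hne (htci h))
      have h1 := hb _ _ hlt (by
        rw [htca]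
        intro h
        have := h.1
        simp at this)
      have h2 := congrArg (fun z => z.2.1) h1
      rw [hcon'] at h2
      simpa using h2
    have hb3 : b.2.2 = false := by
      by_contra hcon
      have hcon' : b.2.2 = true := by simpa using hcon
      obtain ⟨i₀, hi₀⟩ := Finite.exists_max fun i : Bool × Fin K => tc i
      apply hnoP (φ (tc i₀)) (fun i => tc (!i₀.1, i)) (hcl _)
      intro i
      have hne : i₀ ≠ (!i₀.1, i) := by
        intro h
        have := congrArg Prod.fst h
        simp at this
      have hlt : tc (!i₀.1, i) < tc i₀ := lt_of_le_of_ne (hi₀ _) (fun h => hne (htci h).symm)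
      have h1 := hb _ _ hlt (by
        rw [htca]
        intro h
        have := h.1
        simp at this)
      have h2 := congrArg (fun z => z.2.2) h1
      rw [hcon'] at h2
      simpa using h2
    -- `P` is trivial on the copy
    have hPtriv : ∀ u v : Fin m, P (φ u) (φ v) → u = v := by
      intro u v huv
      by_contra hne
      rcases lt_or_gt_of_ne hne with hlt | hlt
      · by_cases hadj : G₀.Adj u v
        · have h2 := congrArg (fun z => z.2.1) (ha _ _ hlt hadj)
          rw [ha2] at h2
          simp [huv] at h2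
        · have h2 := congrArg (fun z => z.2.1) (hb _ _ hlt hadj)
          rw [hb2] at h2
          simp [huv] at h2
      · by_cases hadj : G₀.Adj v u
        · have h2 := congrArg (fun z => z.2.2) (ha _ _ hlt hadj)
          rw [ha3] at h2
          simp [huv] at h2
        · have h2 := congrArg (fun z => z.2.2) (hb _ _ hlt hadj)
          rw [hb3] at h2
          simp [huv] at h2
    -- `A` on the copy
    have hAadj : ∀ u v : Fin m, u ≠ v → (A (φ u) (φ v) ↔ (a.1 = true ∧ G₀.Adj u v)) := by
      have key : ∀ u v : Fin m, u < v → (A (φ u) (φ v) ↔ (a.1 = true ∧ G₀.Adj u v)) := by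
        intro u v hlt
        by_cases hadj : G₀.Adj u v
        · have h2 := congrArg (fun z => z.1) (ha _ _ hlt hadj)
          simp only at h2
          rw [← h2]
          simp [hadj]
        · have h2 := congrArg (fun z => z.1) (hb _ _ hlt hadj)
          rw [hb1] at h2
          simp only [decide_eq_false_iff_not] at h2
          simp [hadj, h2]
      intro u v hne
      rcases lt_or_gt_of_ne hne with hlt | hlt
      · exact key u v hlt
      · have h1 := key v u hlt
        rw [SimpleGraph.adj_comm, ← h1]
        exact ⟨hAsymm _ _ (fun h => hne (hφi h)), hAsymm _ _ (fun h => hne (hφi h).symm)⟩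
    -- restrict to `F`
    obtain ⟨f, hfi, hfa⟩ := huniv W F hWq hF
    refine ⟨fun a => e (φ (f a)), fun a => w (φ (f a)), ?_, ?_, ?_, ?_, ?_, ?_⟩
    · exact he.comp (hφi.comp hfi)
    · intro x y
      rw [heH, hφa, hfa]
    · intro x s y
      rw [hP]
      constructor
      · intro h1
        exact hfi (hPtriv _ _ h1)
      · rintro rfl
        exact hPv _
    · intro x s y
      exact hwe _ _ _
    · intro x s y t hst
      have hst' : w (φ (f x)) s = w (φ (f y)) t := hst
      have h1 : x = y := by
        apply hfi
        apply hPtriv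
        rw [← hP _ s, hst', hP]
        exact hPv _
      subst h1
      exact ⟨rfl, hwinj _ hst'⟩
    · by_cases ha1 : a.1 = true
      · right
        intro x s y t
        by_cases hxy : x = y
        · subst hxy
          exact ⟨fun h => absurd h (hwind _ _ _), fun h => absurd h (F.irrefl)⟩
        · have hne : f x ≠ f y := fun h => hxy (hfi h)
          rw [hA _ _ (fun h => hne (hφi h)), hAadj _ _ hne, hfa]
          simp [ha1]
      · left
        intro x s y t
        by_cases hxy : x = y
        · subst hxy
          exact hwind _ _ _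
        · have hne : f x ≠ f y := fun h => hxy (hfi h)
          rw [hA _ _ (fun h => hne (hφi h)), hAadj _ _ hne]
          simp [ha1]

end Pool.Agent.H17.Split
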