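import Mathlib
import Pool.Agent.H17.Split.Defs
import Pool.Agent.H17.Split.Key

/-!
All large trees with few non-leaf vertices give splittable classes.
-/

namespace Pool.Agent.H17.Split

open Finset

theorem noClique_iff {V : Type} (k : ℕ) (G : SimpleGraph V) :
    NoClique k G ↔ IsEmpty ((⊤ : SimpleGraph (Fin k)) ↪g G) := by
  constructor
  · intro h
    refine ⟨fun e => h e fun i j hij => ?_⟩
    rw [e.map_adj_iff]
    simpa using hij
  · intro h q hq
    have hinj : Function.Injective q := by
      intro i j hij
      by_contra hne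
      have := hq i j hne
      rw [hij] at this
      exact G.irrefl this
    refine h.false ⟨⟨q, hinj⟩, ?_⟩
    intro a b
    simp only [Function.Embedding.coeFn_mk, SimpleGraph.top_adj]
    constructor
    · rintro h1 rfl
      exact G.irrefl h1
    · exact hq a b

/-- proper colouring of the vertices of small degree -/
theorem low_colouring {p : ℕ} (γ : SimpleGraph (Fin p)) (D : ℕ) (low : Fin p → Prop)
    (hlow : ∀ v, low v → ∀ N : Finset (Fin p), (∀ x ∈ N, γ.Adj v x) → N.card < D) :
    ∃ f : Fin p → ℕ, (∀ v, low v → f v < D) ∧ ∀ u v, low u → low v → γ.Adj u v → f u ≠ f v := by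
  classical
  have key : ∀ S : Finset (Fin p), ∃ f : Fin p → ℕ, (∀ v ∈ S, low v → f v < D) ∧
      ∀ u ∈ S, ∀ v ∈ S, low u → low v → γ.Adj u v → f u ≠ f v := by
    intro S
    induction S using Finset.induction_on with
    | empty => exact ⟨fun _ => 0, by simp, by simp⟩
    | insert a S ha ih =>
      obtain ⟨f, hf1, hf2⟩ := ih
      by_cases hal : low a
      · -- a free colour
        have hcard : (S.filter fun x => γ.Adj a x).card < D :=
          hlow a hal _ fun x hx => (mem_filter.mp hx).2
        obtain ⟨c, hcD, hc⟩ : ∃ c ∈ range D, c ∉ (S.filter fun x => γ.Adj a x).image f := by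
          by_contra hcon
          push Not at hcon
          have h1 : range D ⊆ (S.filter fun x => γ.Adj a x).image f := fun c hc => hcon c hc
          have h2 := (card_le_card h1).trans card_image_le
          rw [card_range] at h2
          omega
        rw [mem_range] at hcD
        have hne : ∀ v ∈ S, v ≠ a := fun v hv h => ha (h ▸ hv)
        refine ⟨Function.update f a c, ?_, ?_⟩
        · intro v hv hvl
          rcases mem_insert.mp hv with rfl | hv
          · simpa using hcD
          · rw [Function.update_of_ne (hne v hv)]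
            exact hf1 v hv hvl
        · intro u hu v hv hul hvl huv
          rcases mem_insert.mp hu with hua | hu'
          · rcases mem_insert.mp hv with hva | hv'
            · rw [hua, hva] at huv
              exact absurd huv (γ.irrefl)
            · rw [hua] at huv ⊢
              rw [Function.update_self, Function.update_of_ne (hne v hv')]
              rintro rfl
              exact hc (mem_image_of_mem _ (mem_filter.mpr ⟨hv', huv⟩))
          · rcases mem_insert.mp hv with hva | hv'
            · rw [hva] at huv ⊢
              rw [Function.update_self, Function.update_of_ne (hne u hu')]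
              rintro rfl
              exact hc (mem_image_of_mem _ (mem_filter.mpr ⟨hu', huv.symm⟩))
            · rw [Function.update_of_ne (hne u hu'), Function.update_of_ne (hne v hv')]
              exact hf2 u hu' v hv' hul hvl huv
      · refine ⟨f, ?_, ?_⟩
        · intro v hv hvl
          rcases mem_insert.mp hv with rfl | hv
          · exact absurd hvl hal
          · exact hf1 v hv hvl
        · intro u hu v hv hul hvl huv
          rcases mem_insert.mp hu with rfl | hu
          · exact absurd hul hal
          · rcases mem_insert.mp hv with rfl | hv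
            · exact absurd hvl hal
            · exact hf2 u hu v hv hul hvl huv
  obtain ⟨f, hf1, hf2⟩ := key univ
  exact ⟨f, fun v => hf1 v (mem_univ _), fun u v => hf2 u (mem_univ _) v (mem_univ _)⟩

/-- structure of a tree with at least three vertices -/
theorem tree_parent {n : ℕ} (T : SimpleGraph (Fin n)) (hT : T.IsTree) (hn : 3 ≤ n) :
    ∃ par : Fin n → Fin n, ∀ v, v ∉ nonLeaf T → par v ∈ nonLeaf T ∧
      ∀ u, T.Adj v u ↔ u = par v := by
  have hconn := hT.connected
  -- every vertex has a neighbour
  have hnb : ∀ v, ∃ u, T.Adj v u := by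
    intro v
    obtain ⟨w, hw⟩ : ∃ w : Fin n, w ≠ v := by
      by_cases h0 : v = ⟨0, by omega⟩
      · exact ⟨⟨1, by omega⟩, by rw [h0]; simp⟩
      · exact ⟨⟨0, by omega⟩, Ne.symm h0⟩
    obtain ⟨p⟩ := hconn.preconnected v w
    cases p with
    | nil => exact absurd rfl hw
    | cons h _ => exact ⟨_, h⟩
  choose par hpar using hnb
  refine ⟨par, fun v hv => ⟨?_, fun u => ⟨fun h => ?_, fun h => h ▸ hpar v⟩⟩⟩
  · by_contra hcon
    -- `{v, par v}` is closed
    have hclosed : ∀ w, w = v ∨ w = par v := by
      intro w
      obtain ⟨p⟩ := hconn.preconnected v w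
      have key : ∀ a b : Fin n, T.Walk a b → (a = v ∨ a = par v) → (b = v ∨ b = par v) := by
        intro a b p
        induction p with
        | nil => exact id
        | @cons a' b' c' hadj _ ih =>
          intro ha
          apply ih
          rcases ha with ha | ha
          · right
            by_contra hne
            rw [ha] at hadj
            exact hv ⟨b', par v, hne, hadj, hpar v⟩
          · left
            by_contra hne
            rw [ha] at hadj
            exact hcon ⟨b', v, hne, hadj, (hpar v).symm⟩
      exact key v w p (Or.inl rfl)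
    have h1 := hclosed ⟨0, by omega⟩
    have h2 := hclosed ⟨1, by omega⟩
    have h3 := hclosed ⟨2, by omega⟩
    have e01 : (⟨0, by omega⟩ : Fin n) ≠ ⟨1, by omega⟩ := by simp
    have e02 : (⟨0, by omega⟩ : Fin n) ≠ ⟨2, by omega⟩ := by simp
    have e12 : (⟨1, by omega⟩ : Fin n) ≠ ⟨2, by omega⟩ := by simp
    rcases h1 with h1 | h1 <;> rcases h2 with h2 | h2 <;> rcases h3 with h3 | h3
    · exact e01 (h1.trans h2.symm)
    · exact e01 (h1.trans h2.symm)
    · exact e02 (h1.trans h3.symm)
    · exact e12 (h2.trans h3.symm)
    · exact e12 (h2.trans h3.symm)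
    · exact e02 (h1.trans h3.symm)
    · exact e01 (h1.trans h2.symm)
    · exact e01 (h1.trans h2.symm)
  · by_contra hne
    exact hv ⟨u, par v, hne, h, hpar v⟩

/-- the internal subtree with one extra pendant vertex at each vertex -/
def plus {n : ℕ} (T : SimpleGraph (Fin n)) : SimpleGraph (nonLeaf T ⊕ nonLeaf T) where
  Adj a b := match a, b with
    | Sum.inl u, Sum.inl v => T.Adj u v
    | Sum.inl u, Sum.inr v => u = v
    | Sum.inr u, Sum.inl v => u = v
    | Sum.inr _, Sum.inr _ => False
  symm := ⟨by
    rintro (a | a) (b | b) h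
    · exact SimpleGraph.Adj.symm h
    · exact h.symm
    · exact h.symm
    · exact h⟩
  loopless := ⟨by
    rintro (a | a) h
    · exact T.irrefl h
    · exact h⟩

theorem plus_noClique {n : ℕ} (T : SimpleGraph (Fin n)) (hT : T.IsTree) {k : ℕ} (hk : 3 ≤ k) :
    NoClique k (plus T) := by
  intro q hq
  set a : Fin k := ⟨0, by omega⟩
  set b : Fin k := ⟨1, by omega⟩
  set c : Fin k := ⟨2, by omega⟩
  have hab : a ≠ b := by simp [a, b]
  have hac : a ≠ c := by simp [a, c]
  have hbc : b ≠ c := by simp [b, c]
  have h1 := hq a b hab
  have h2 := hq a c hac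
  have h3 := hq b c hbc
  -- all three are on the left
  rcases ha : q a with u | u <;> rcases hb : q b with v | v <;> rcases hc : q c with w | w <;>
    rw [ha, hb] at h1 <;> rw [ha, hc] at h2 <;> rw [hb, hc] at h3
  · -- triangle in `T`
    have hcf := hT.isAcyclic.cliqueFree (n := 3) le_rfl
    exact hcf {u.1, v.1, w.1} (SimpleGraph.is3Clique_triple_iff.mpr ⟨h1, h2, h3⟩)
  · have e1 : u = w := h2
    have e2 : v = w := h3
    subst e1
    subst e2
    exact T.irrefl h1
  · have e1 : u = v := h1
    have e2 : v = w := h3
    subst e1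
    subst e2
    exact T.irrefl h2
  · exact h3
  · have e1 : u = v := h1
    have e2 : u = w := h2
    subst e1
    subst e2
    exact T.irrefl h3
  · exact h2
  · exact h1
  · exact h1

theorem main (k m : ℕ) (hk : 3 ≤ k) : ∃ N : ℕ, ∀ (n : ℕ) (T : SimpleGraph (Fin n)), N ≤ n →
    T.IsTree → (nonLeaf T).ncard ≤ m → Splittable T k := by
  classical
  obtain ⟨K, rfl⟩ : ∃ K, k = K + 1 := ⟨k - 1, by omega⟩
  obtain ⟨h, H, hH, ⟨x₀, y₀, hxy₀⟩, hkey⟩ := keyZ K (2 * m + 2 * K) (by omega) (by omega)
  refine ⟨h + 3, fun n T hn hT hm => ?_⟩
  obtain ⟨D, hD⟩ := hkey n (by omega)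
  refine ⟨D + 1, h, H, ?_, (noClique_iff _ _).mp hH, fun p γ hγT hγK => ?_⟩
  · refine ⟨fun e => ?_⟩
    have := Fintype.card_le_of_injective e e.injective
    simp at this
    omega
  · have hγ : NoClique (K + 1) γ := (noClique_iff _ _).mpr hγK
    set low : Fin p → Prop := fun v => ∀ N : Finset (Fin p), (∀ x ∈ N, γ.Adj v x) → N.card < D
      with hlow
    obtain ⟨f, hf1, hf2⟩ := low_colouring γ D low fun v hv => hv
    refine ⟨fun v => if hv : low v then ⟨f v, Nat.lt_succ_of_lt (hf1 v hv)⟩ else ⟨D, by omega⟩,
      fun e => ?_⟩
    by_contra hcon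
    push Not at hcon
    by_cases hex : ∃ v, low (e v)
    · -- all low
      obtain ⟨v, hv⟩ := hex
      have hall : ∀ u, low (e u) := by
        intro u
        by_contra hu
        have h1 := hcon u v
        rw [dif_neg hu, dif_pos hv] at h1
        have h2 : D = f (e v) := congrArg Fin.val h1
        have h3 := hf1 _ hv
        omega
      have h1 := hcon x₀ y₀
      rw [dif_pos (hall x₀), dif_pos (hall y₀)] at h1
      have h2 : f (e x₀) = f (e y₀) := congrArg Fin.val h1
      exact hf2 _ _ (hall x₀) (hall y₀) (e.map_adj_iff.mpr hxy₀) h2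
    · -- all high
      push Not at hex
      have hhigh : ∀ v, ∃ N : Finset (Fin p), D ≤ N.card ∧ ∀ x ∈ N, γ.Adj (e v) x := by
        intro v
        have h1 := hex v
        simp only [hlow, not_forall, not_lt] at h1
        obtain ⟨N, h2, h3⟩ := h1
        exact ⟨N, h3, h2⟩
      have hWcard : Fintype.card (nonLeaf T ⊕ nonLeaf T) ≤ 2 * m + 2 * K := by
        rw [Fintype.card_sum, ← Set.toFinset_card, ← Set.ncard_eq_toFinset_card']
        omega
      obtain ⟨x, w, hxi, hxa, hwx, hwne, hwi, hww⟩ := hD p γ hγ e e.injective
        (fun x y => e.map_adj_iff) hhigh (nonLeaf T ⊕ nonLeaf T) (plus T) hWcard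
        (plus_noClique T hT (by omega))
      obtain ⟨par, hpar⟩ := tree_parent T hT (by omega)
      suffices hemb : Nonempty (T ↪g γ) from hγT.false hemb.some
      rcases hww with hww | hww
      · -- corona
        let g : Fin n → Fin p := fun v =>
          if hv : v ∈ nonLeaf T then x (Sum.inl ⟨v, hv⟩) else w (Sum.inl ⟨par v, (hpar v hv).1⟩) v
        have g1 : ∀ v (hv : v ∈ nonLeaf T), g v = x (Sum.inl ⟨v, hv⟩) := fun v hv => dif_pos hv
        have g2 : ∀ v (hv : v ∉ nonLeaf T), g v = w (Sum.inl ⟨par v, (hpar v hv).1⟩) v :=
          fun v hv => dif_neg hv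
        have ginj : Function.Injective g := by
          intro a b hab
          by_cases ha : a ∈ nonLeaf T <;> by_cases hb : b ∈ nonLeaf T
          · rw [g1 a ha, g1 b hb] at hab
            have := Sum.inl_injective (hxi hab)
            exact congrArg Subtype.val this
          · rw [g1 a ha, g2 b hb] at hab
            exact absurd hab.symm (hwne _ _ _)
          · rw [g2 a ha, g1 b hb] at hab
            exact absurd hab (hwne _ _ _)
          · rw [g2 a ha, g2 b hb] at hab
            exact (hwi _ _ _ _ hab).2
        refine ⟨⟨⟨g, ginj⟩, ?_⟩⟩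
        intro a b
        change γ.Adj (g a) (g b) ↔ T.Adj a b
        by_cases ha : a ∈ nonLeaf T <;> by_cases hb : b ∈ nonLeaf T
        · rw [g1 a ha, g1 b hb, hxa]
          rfl
        · rw [g1 a ha, g2 b hb, SimpleGraph.adj_comm, hwx, T.adj_comm, (hpar b hb).2]
          constructor
          · intro h1
            exact (congrArg Subtype.val (Sum.inl_injective h1)).symm
          · intro h1
            congr 1
            exact Subtype.ext h1.symm
        · rw [g2 a ha, g1 b hb, hwx, (hpar a ha).2]
          constructor
          · intro h1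
            exact (congrArg Subtype.val (Sum.inl_injective h1)).symm
          · intro h1
            congr 1
            exact Subtype.ext h1.symm
        · rw [g2 a ha, g2 b hb]
          constructor
          · intro h1
            exact absurd h1 (hww _ _ _ _)
          · intro h1
            rw [(hpar a ha).2] at h1
            rw [h1] at hb
            exact absurd (hpar a ha).1 hb
      · -- blow-up
        let g : Fin n → Fin p := fun v =>
          if hv : v ∈ nonLeaf T then w (Sum.inl ⟨v, hv⟩) v
          else w (Sum.inr ⟨par v, (hpar v hv).1⟩) v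
        have g1 : ∀ v (hv : v ∈ nonLeaf T), g v = w (Sum.inl ⟨v, hv⟩) v := fun v hv => dif_pos hv
        have g2 : ∀ v (hv : v ∉ nonLeaf T), g v = w (Sum.inr ⟨par v, (hpar v hv).1⟩) v :=
          fun v hv => dif_neg hv
        have ginj : Function.Injective g := by
          intro a b hab
          by_cases ha : a ∈ nonLeaf T <;> by_cases hb : b ∈ nonLeaf T
          · rw [g1 a ha, g1 b hb] at hab
            exact (hwi _ _ _ _ hab).2
          · rw [g1 a ha, g2 b hb] at hab
            exact (hwi _ _ _ _ hab).2
          · rw [g2 a ha, g1 b hb] at hab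
            exact (hwi _ _ _ _ hab).2
          · rw [g2 a ha, g2 b hb] at hab
            exact (hwi _ _ _ _ hab).2
        refine ⟨⟨⟨g, ginj⟩, ?_⟩⟩
        intro a b
        change γ.Adj (g a) (g b) ↔ T.Adj a b
        by_cases ha : a ∈ nonLeaf T <;> by_cases hb : b ∈ nonLeaf T
        · rw [g1 a ha, g1 b hb, hww]
          rfl
        · rw [g1 a ha, g2 b hb, hww, T.adj_comm, (hpar b hb).2]
          change (⟨a, ha⟩ : nonLeaf T) = ⟨par b, _⟩ ↔ _
          rw [Subtype.mk.injEq]
        · rw [g2 a ha, g1 b hb, hww, (hpar a ha).2]
          change (⟨par a, _⟩ : nonLeaf T) = ⟨b, hb⟩ ↔ _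
          rw [Subtype.mk.injEq]
          exact eq_comm
        · rw [g2 a ha, g2 b hb, hww]
          constructor
          · intro h1
            exact absurd h1 id
          · intro h1
            rw [(hpar a ha).2] at h1
            rw [h1] at hb
            exact absurd (hpar a ha).1 hb

end Pool.Agent.H17.Split
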